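import Pool.Agent.U331.FS.V
import Pool.Agent.Results.MP_03ef3d_ag.FanoDoubleCovers

/-!
# The Hasse principle for ALL twists of ALL Fano double covers near the integral combinations of an infinite sequence

Let `V_j(x; u, v) = A_j(x) u² + B_j(x) u v + D_j(x) v²`, `j ≥ 0`, be any sequence of forms of bidegrees `(2 m_j, 2)` with integral
coefficients and a smooth divisor `V_j = 0` in `ℙ^(n_j) × ℙ¹` (for example an enumeration of ALL of them). The double covers
`w² = a V_j(x; u, v)` are Fano varieties for `m_j ≤ n_j`. We show that EVERY set `B` of natural numbers of positive lower density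
contains an infinite sequence `x_0, x_1, …` such that for ALL nonzero integral vectors `u` with finite support and entries of
absolute value at most `H`, with largest index `n`, for ALL squarefree integers `a` (positive or negative) with
`||a| - |∑ uᵢ xᵢ|| ≤ n` and for ALL `j ≤ n`: if the double cover `w² = a V_j` has points over `ℝ` and all `ℚ_p` then it has a rational
point. There is no exception among the infinitely many combinations, and one sequence is good for all the covers (each of
them with finitely many levels `n` left out).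

Proof: a greedy choice. At the step `n` there are at most `(2 H + 1) ^ (n + 1)` conditions for the new term, each of them excludes at
most twice as many integers as there are integers near the exceptions of the starting result `FanoDoubleCovers` for the
first `n + 1` forms, and these have density zero (`Pool.Agent.U331.FS`). The lemma `few` is taken from helper449's `MixedOnDenseSets`.
-/

set_option autoImplicit false

namespace Pool.Agent.Results.MP_03ef3d_ag.AllCombinations

open Pool.Agent.U331.FS (AllSumsDens all_sums_seq_int)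
open Pool.Agent.Results.MP_03ef3d_ag.FanoDoubleCovers (HasPoint SmoothBranch locallySoluble globallySoluble)

/-- a form of bidegree `(2 m, 2)` on `ℙⁿ × ℙ¹` with smooth divisor -/
structure Data where
  /-- the dimension of the first factor -/
  n : ℕ
  /-- half of the degree -/
  m : ℕ
  /-- the coefficient of `u²` -/
  A : MvPolynomial (Fin (n + 1)) ℤ
  /-- the coefficient of `u v` -/
  B : MvPolynomial (Fin (n + 1)) ℤ
  /-- the coefficient of `v²` -/
  D : MvPolynomial (Fin (n + 1)) ℤ
  /-- the dimension is positive -/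
  hn : 1 ≤ n
  /-- the degree is positive -/
  hm : 1 ≤ m
  /-- the degree of `A` -/
  hA : A.IsHomogeneous (2 * m)
  /-- the degree of `B` -/
  hB : B.IsHomogeneous (2 * m)
  /-- the degree of `D` -/
  hD : D.IsHomogeneous (2 * m)
  /-- the divisor is smooth -/
  hs : SmoothBranch A B D

/-- The Hasse principle for ALL squarefree integers `a` with `||a| - v| ≤ n` and ALL `j ≤ n`: if the twist `w² = a V_j` has points over
`ℝ` and all `ℚ_p` then it has a rational point. -/
def Near (V : ℕ → Data) (n v : ℕ) : Prop :=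
  ∀ j ≤ n, ∀ a : ℤ, |(|a| : ℤ) - v| ≤ n → Squarefree a → HasPoint (V j).A (V j).B (V j).D a ℝ →
    (∀ p : Nat.Primes, HasPoint (V j).A (V j).B (V j).D a ℚ_[(p : ℕ)]) → HasPoint (V j).A (V j).B (V j).D a ℚ

/-- the exceptions have density zero -/
lemma few (V : Data) (ε : ℝ) (hε : 0 < ε) : ∃ X₀ : ℕ, ∀ H : ℕ, X₀ ≤ H →
      ({a : ℤ | |a| ≤ (H : ℤ) ∧ ¬ (Squarefree a → HasPoint V.A V.B V.D a ℝ →
        (∀ p : Nat.Primes, HasPoint V.A V.B V.D a ℚ_[(p : ℕ)]) → HasPoint V.A V.B V.D a ℚ)}.ncard : ℝ) ≤ ε * H := by
  classical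
  obtain ⟨-, h1⟩ := FanoDoubleCovers.result V.n V.m V.hn V.hm V.A V.B V.D V.hA V.hB V.hD V.hs
  have h2 : ∀ᶠ H : ℕ in Filter.atTop,
      1 - ε / 3 < ((globallySoluble V.A V.B V.D H).ncard : ℝ) / ((locallySoluble V.A V.B V.D H).ncard : ℝ) :=
    h1.eventually (lt_mem_nhds (by linarith))
  obtain ⟨H₀, hH₀⟩ := Filter.eventually_atTop.1 h2
  refine ⟨max H₀ 1, fun H hH => ?_⟩
  have hH0 : H₀ ≤ H := (le_max_left _ _).trans hH
  have hH1 : 1 ≤ H := (le_max_right _ _).trans hH
  have hf : ∀ P : ℤ → Prop, {a : ℤ | |a| ≤ (H : ℤ) ∧ P a}.Finite := fun P =>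
    (Set.finite_Icc (-(H : ℤ)) H).subset fun a ha => Set.mem_Icc.2 (abs_le.1 ha.1)
  have hset : {a : ℤ | |a| ≤ (H : ℤ) ∧ ¬ (Squarefree a → HasPoint V.A V.B V.D a ℝ →
      (∀ p : Nat.Primes, HasPoint V.A V.B V.D a ℚ_[(p : ℕ)]) → HasPoint V.A V.B V.D a ℚ)} =
      locallySoluble V.A V.B V.D H \ globallySoluble V.A V.B V.D H := by
    ext a
    simp only [Set.mem_ofPred_eq, Set.mem_sdiff, locallySoluble, globallySoluble, Classical.not_imp]
    constructor
    · rintro ⟨g5, g1, g2, g3, g4⟩
      exact ⟨⟨g5, g1, g2, g3⟩, fun hc => g4 hc.2.2⟩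
    · rintro ⟨⟨g5, g1, g2, g3⟩, g4⟩
      exact ⟨g5, g1, g2, g3, fun hc => g4 ⟨g5, g1, hc⟩⟩
  have hfl : (locallySoluble V.A V.B V.D H).Finite := hf _
  have hgl : globallySoluble V.A V.B V.D H ⊆ locallySoluble V.A V.B V.D H := by
    rintro a ⟨g1, g2, g3⟩
    exact ⟨g1, g2, FanoDoubleCovers.cast_point ℝ g3, fun p => by
      have := Fact.mk p.2
      exact FanoDoubleCovers.cast_point ℚ_[(p : ℕ)] g3⟩
  rw [hset]
  have h3 : (locallySoluble V.A V.B V.D H \ globallySoluble V.A V.B V.D H).ncard + (globallySoluble V.A V.B V.D H).ncard =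
      (locallySoluble V.A V.B V.D H).ncard := Set.ncard_sdiff_add_ncard_of_subset hgl hfl
  have h4 : ((locallySoluble V.A V.B V.D H \ globallySoluble V.A V.B V.D H).ncard : ℝ) =
      (locallySoluble V.A V.B V.D H).ncard - (globallySoluble V.A V.B V.D H).ncard := by
    rw [← h3]
    push_cast
    ring
  have h5 : ((locallySoluble V.A V.B V.D H).ncard : ℝ) ≤ 3 * H := by
    have h6 : locallySoluble V.A V.B V.D H ⊆ ((Finset.Icc (-(H : ℤ)) H : Finset ℤ) : Set ℤ) := by
      intro a ha
      rw [Finset.mem_coe, Finset.mem_Icc]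
      exact abs_le.1 ha.1
    have h7 := Set.ncard_le_ncard h6 (Finset.finite_toSet _)
    rw [Set.ncard_coe_finset, Int.card_Icc] at h7
    have h8 : (locallySoluble V.A V.B V.D H).ncard ≤ 3 * H := by omega
    exact_mod_cast h8
  rcases Nat.eq_zero_or_pos (locallySoluble V.A V.B V.D H).ncard with h6 | h6
  · have h7 : ((locallySoluble V.A V.B V.D H \ globallySoluble V.A V.B V.D H).ncard : ℝ) ≤ 0 := by
      rw [h4, h6]
      have : (0 : ℝ) ≤ (globallySoluble V.A V.B V.D H).ncard := Nat.cast_nonneg _
      push_cast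
      linarith
    have : 0 ≤ ε * H := by positivity
    linarith
  · have h7 : (0 : ℝ) < (locallySoluble V.A V.B V.D H).ncard := by exact_mod_cast h6
    have h8 := hH₀ H hH0
    rw [lt_div_iff₀ h7] at h8
    rw [h4]
    have h9 : ε / 3 * ((locallySoluble V.A V.B V.D H).ncard : ℝ) ≤ ε / 3 * (3 * H) :=
      mul_le_mul_of_nonneg_left h5 (by positivity)
    linarith

/-- **Theorem.** Let `V_j` be any sequence of forms of bidegrees `(2 m_j, 2)` with smooth divisors in `ℙ^(n_j) × ℙ¹`. The property
`Near V n v` (the Hasse principle for ALL the twists near `v` of the first `n + 1` covers) holds for all combinations `v` with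
bounded coefficients and largest index `n` of an infinite sequence in every set of positive lower density (`AllSumsDens`). -/
theorem result (V : ℕ → Data) : AllSumsDens (fun n _ v => Near V n v) :=
  all_sums_seq_int (G := fun j a => Squarefree a → HasPoint (V j).A (V j).B (V j).D a ℝ →
    (∀ p : Nat.Primes, HasPoint (V j).A (V j).B (V j).D a ℚ_[(p : ℕ)]) → HasPoint (V j).A (V j).B (V j).D a ℚ)
    (fun j ε hε => few (V j) ε hε)

end Pool.Agent.Results.MP_03ef3d_ag.AllCombinations
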