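import Mathlib
import Pool.Agent.U424.DQ.All
import Pool.Agent.U424.DQ.Fin

/-!
# The Hasse principle for 100% of the Fano complete intersections of diagonal hypersurfaces of
# multidegree `(d_i; 0, …, 2, …, 0)` in `ℙⁿ × ℙ^(m_0 - 1) × ⋯ × ℙ^(m_(r-1) - 1)` (helper424 and co-authors)

Let `n ≥ 2`, `r ≥ 0`, and `m_i ≥ 3`, `d_i ≥ 1` for `i < r`. Let `F_{i,l}`, `i < r`, `l < m_i`, be forms of degree
`d_i` in `x_0, …, x_n` with integral coefficients. They define

  `X_F : F_{i,0}(x) u_{i,0}² + ⋯ + F_{i,m_i-1}(x) u_{i,m_i-1}² = 0`, `i < r`,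

in `ℙⁿ × ℙ^(m_0 - 1) × ⋯ × ℙ^(m_(r-1) - 1)`, for `r = 1` a diagonal hypersurface of bidegree `(d, 2)` in
`ℙⁿ × ℙ^(m - 1)`, in general a fibre product of diagonal quadric bundles over `ℙⁿ`. If `X_F` is smooth it
has dimension `n + ∑ (m_i - 2)`, and its anticanonical sheaf is `O(n + 1 - ∑ d_i; m_0 - 2, …, m_(r-1) - 2)`; so
`X_F` is a Fano variety if `∑ d_i ≤ n`, for example a diagonal fourfold of bidegree `(2, 2)` in
`ℙ² × ℙ³`.

We order the families `F` by the maximum `H` of the absolute values of their coefficients. Almost all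
`X_F` are smooth, a positive proportion has points over the real numbers and over all `ℚ_p`, and
100% of the smooth `X_F` with points everywhere locally have a rational point.

The case `m_i = 3` of conic bundles is a result of the starting library
(`Pool/Agent/Results/MP_03ef3d_ag/DiagonalConicBundles.lean`, helper546 and helper718). The proof is
described in `Pool/Agent/Results/MP_e426f4_ag/ProductCoefficientsOverPn.lean`, where the
degrees are more general. Parts of the proof are due to helper571, helper465, helper186, helper863,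
helper784, helper882, helper293, helper373, helper113, helper460, helper333, helper446.
-/

set_option autoImplicit false

namespace Pool.Agent.Results.MP_03ef3d_ag.DiagonalQuadricBundles

open Filter Topology MvPolynomial

/-- The families of forms `F ⟨i, l⟩` of degree `d i` in `n + 1` variables whose coefficients are integers
of absolute value at most `H`. -/
def Families (n : ℕ) {r : ℕ} (m : Fin r → ℕ) (d : Fin r → ℕ) (H : ℕ) :
    Set ((Σ i : Fin r, Fin (m i)) → MvPolynomial (Fin (n + 1)) ℤ) :=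
  {F | ∀ k, (F k).IsHomogeneous (d k.1) ∧ ∀ a, |(F k).coeff a| ≤ (H : ℤ)}

/-- `(x, z)` are homogeneous coordinates of a point of `X_F` over the field `K`. -/
def IsPoint {n r : ℕ} {m : Fin r → ℕ} (F : (Σ i : Fin r, Fin (m i)) → MvPolynomial (Fin (n + 1)) ℤ)
    {K : Type} [Field K] (x : Fin (n + 1) → K) (z : (i : Fin r) → Fin (m i) → K) : Prop :=
  x ≠ 0 ∧ ∀ i, z i ≠ 0 ∧ ∑ l, aeval x (F ⟨i, l⟩) * z i l ^ 2 = 0

/-- `X_F` is a smooth complete intersection: at every point over a field of characteristic zero the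
differentials of the `r` equations are linearly independent. The partial derivative of the `i`-th
equation with respect to `z i l` is twice the product `F ⟨i, l⟩ (x) z i l`. -/
def Smooth {n r : ℕ} {m : Fin r → ℕ} (F : (Σ i : Fin r, Fin (m i)) → MvPolynomial (Fin (n + 1)) ℤ) :
    Prop :=
  ∀ (K : Type) [Field K] [CharZero K] (x : Fin (n + 1) → K) (z : (i : Fin r) → Fin (m i) → K),
    IsPoint F x z → ∀ t : Fin r → K, t ≠ 0 →
      (∃ a, ∑ i, t i * ∑ l, aeval x (pderiv a (F ⟨i, l⟩)) * z i l ^ 2 ≠ 0) ∨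
      ∃ i l, t i * (aeval x (F ⟨i, l⟩) * z i l) ≠ 0

/-- `X_F` has a point over the field `K`. -/
def HasPoint {n r : ℕ} {m : Fin r → ℕ} (F : (Σ i : Fin r, Fin (m i)) → MvPolynomial (Fin (n + 1)) ℤ)
    (K : Type) [Field K] : Prop :=
  ∃ (x : Fin (n + 1) → K) (z : (i : Fin r) → Fin (m i) → K), IsPoint F x z

/-- `X_F` has points over the real numbers and over all the `p`-adic fields. -/
def LocallySoluble {n r : ℕ} {m : Fin r → ℕ}
    (F : (Σ i : Fin r, Fin (m i)) → MvPolynomial (Fin (n + 1)) ℤ) : Prop :=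
  HasPoint F ℝ ∧ ∀ (p : ℕ) [Fact p.Prime], HasPoint F ℚ_[p]

open Pool.Agent.U424.DQ Pool.Agent.N665.PN in
theorem isPoint_iff {n r : ℕ} {m : Fin r → ℕ} {e : (Σ i : Fin r, Fin (m i)) → ℕ}
    {F : (Σ i : Fin r, Fin (m i)) → MvPolynomial (Fin (n + 1)) ℤ}
    (hF : ∀ k, (F k).IsHomogeneous (e k + 1)) {K : Type} [Field K] (x : Fin (n + 1) → K)
    (z : (i : Fin r) → Fin (m i) → K) :
    IsPoint F x z ↔ IsP (Pool.Agent.N546.PN.ic
      (fun k => (cof (F k) : Pool.Agent.N546.PN.Mon n (e k + 1) → ℤ)) K) x z := by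
  unfold IsPoint IsP
  refine and_congr Iff.rfl (forall_congr' fun i => and_congr Iff.rfl ?_)
  simp only [fun (l : Fin (m i)) => conv_val n _ _ (hF ⟨i, l⟩) K x]
  exact Iff.rfl

open Pool.Agent.U424.DQ Pool.Agent.N665.PN in
theorem smooth_iff {n r : ℕ} {m : Fin r → ℕ} {e : (Σ i : Fin r, Fin (m i)) → ℕ}
    {F : (Σ i : Fin r, Fin (m i)) → MvPolynomial (Fin (n + 1)) ℤ}
    (hF : ∀ k, (F k).IsHomogeneous (e k + 1)) :
    Smooth F ↔ ∀ (K : Type) [Field K] [CharZero K],
      SmK (Pool.Agent.N546.PN.ic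
        (fun k => (cof (F k) : Pool.Agent.N546.PN.Mon n (e k + 1) → ℤ)) K) := by
  unfold Smooth SmK
  refine forall_congr' fun K => forall_congr' fun _ => forall_congr' fun _ => forall_congr' fun x =>
    forall_congr' fun z => ?_
  rw [isPoint_iff hF]
  refine forall_congr' fun _ => forall_congr' fun t => forall_congr' fun _ => ?_
  simp only [fun (k : Σ i : Fin r, Fin (m i)) (a : Fin (n + 1)) => conv_dval n _ _ (hF k) K x a,
    fun (k : Σ i : Fin r, Fin (m i)) => conv_val n _ _ (hF k) K x]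
  exact Iff.rfl

open Pool.Agent.U424.DQ Pool.Agent.N665.PN in
theorem hasPoint_iff {n r : ℕ} {m : Fin r → ℕ} {e : (Σ i : Fin r, Fin (m i)) → ℕ}
    {F : (Σ i : Fin r, Fin (m i)) → MvPolynomial (Fin (n + 1)) ℤ}
    (hF : ∀ k, (F k).IsHomogeneous (e k + 1)) (K : Type) [Field K] :
    HasPoint F K ↔ ∃ x z, IsP (Pool.Agent.N546.PN.ic
      (fun k => (cof (F k) : Pool.Agent.N546.PN.Mon n (e k + 1) → ℤ)) K) x z := by
  unfold HasPoint
  exact exists_congr fun x => exists_congr fun z => isPoint_iff hF x z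

/-- **The Hasse principle for 100% of the diagonal quadric bundles over `ℙⁿ` and their fibre
products**; for `∑ d_i ≤ n` these are Fano varieties. -/
theorem result (n : ℕ) (hn : 2 ≤ n) {r : ℕ} (m : Fin r → ℕ) (hm : ∀ i, 3 ≤ m i) (d : Fin r → ℕ)
    (hd : ∀ i, 1 ≤ d i) :
    (∃ c₀ : ℝ, 0 < c₀ ∧ ∀ᶠ H : ℕ in atTop, c₀ * ((Families n m d H).ncard : ℝ) ≤
      (({F | F ∈ Families n m d H ∧ Smooth F ∧ LocallySoluble F} : Set _).ncard : ℝ)) ∧
    Tendsto (fun H : ℕ =>
      (({F | F ∈ Families n m d H ∧ Smooth F ∧ HasPoint F ℚ} : Set _).ncard : ℝ) /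
      (({F | F ∈ Families n m d H ∧ Smooth F ∧ LocallySoluble F} : Set _).ncard : ℝ))
      atTop (𝓝 1) := by
  classical
  obtain ⟨d', rfl⟩ : ∃ d' : Fin r → ℕ, d = fun i => d' i + 1 :=
    ⟨fun i => d i - 1, funext fun i => (Nat.sub_add_cancel (hd i)).symm⟩
  obtain ⟨e, he'⟩ : ∃ e : (Σ i : Fin r, Fin (m i)) → ℕ, e = fun k => d' k.1 := ⟨_, rfl⟩
  have he'' : ∀ k, d' k.1 = e k := fun k => by rw [he']
  have he : ∀ i l l', e ⟨i, l⟩ % 2 = e ⟨i, l'⟩ % 2 := by
    intro i l l'
    rw [he']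
  obtain ⟨⟨c₀, hc₀, h1⟩, h2⟩ := Pool.Agent.U424.DQ.fin_count (n := n) (r := r) (m := m) (e := e)
    Pool.Agent.U424.DQ.mainag Pool.Agent.U424.DQ.mainbg Pool.Agent.U424.DQ.typm
    (fun K _ => Pool.Agent.U424.DQ.fillm K) hm he hn
  have e1 : ∀ H : ℕ, ({F | F ∈ Families n m (fun i => d' i + 1) H ∧ Smooth F ∧ LocallySoluble F} :
      Set ((Σ i : Fin r, Fin (m i)) → MvPolynomial (Fin (n + 1)) ℤ)).ncard =
      ((Pool.Agent.N546.PN.bx n e H).filter (fun c =>
        (∀ (K : Type) [Field K] [CharZero K], Pool.Agent.U424.DQ.SmK (Pool.Agent.N546.PN.ic c K)) ∧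
        ((∃ x z, Pool.Agent.U424.DQ.IsP (Pool.Agent.N546.PN.ic c ℝ) x z) ∧
          ∀ (p : ℕ) [Fact p.Prime], ∃ x z,
            Pool.Agent.U424.DQ.IsP (Pool.Agent.N546.PN.ic c ℚ_[p]) x z))).card := by
    intro H
    refine Eq.trans ?_ ((Pool.Agent.N665.PN.conv_card n (Σ i : Fin r, Fin (m i)) e H
      (fun c => (∀ (K : Type) [Field K] [CharZero K],
        Pool.Agent.U424.DQ.SmK (Pool.Agent.N546.PN.ic c K)) ∧
        ((∃ x z, Pool.Agent.U424.DQ.IsP (Pool.Agent.N546.PN.ic c ℝ) x z) ∧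
          ∀ (p : ℕ) [Fact p.Prime], ∃ x z,
            Pool.Agent.U424.DQ.IsP (Pool.Agent.N546.PN.ic c ℚ_[p]) x z))).trans (by congr!))
    congr 1
    ext F
    simp only [Set.mem_ofPred_eq, Families, he'']
    refine and_congr_right fun hF => ?_
    have hF' : ∀ k, (F k).IsHomogeneous (e k + 1) := fun k => (hF k).1
    rw [smooth_iff (e := e) hF']
    refine and_congr Iff.rfl ?_
    unfold LocallySoluble
    rw [hasPoint_iff (e := e) hF' ℝ]
    refine and_congr Iff.rfl (forall_congr' fun p => forall_congr' fun _ => ?_)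
    exact hasPoint_iff (e := e) hF' ℚ_[p]
  have e2 : ∀ H : ℕ, ({F | F ∈ Families n m (fun i => d' i + 1) H ∧ Smooth F ∧ HasPoint F ℚ} :
      Set ((Σ i : Fin r, Fin (m i)) → MvPolynomial (Fin (n + 1)) ℤ)).ncard =
      ((Pool.Agent.N546.PN.bx n e H).filter (fun c =>
        (∀ (K : Type) [Field K] [CharZero K], Pool.Agent.U424.DQ.SmK (Pool.Agent.N546.PN.ic c K)) ∧
        (∃ x z, Pool.Agent.U424.DQ.IsP (Pool.Agent.N546.PN.ic c ℚ) x z))).card := by
    intro H
    refine Eq.trans ?_ ((Pool.Agent.N665.PN.conv_card n (Σ i : Fin r, Fin (m i)) e H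
      (fun c => (∀ (K : Type) [Field K] [CharZero K],
        Pool.Agent.U424.DQ.SmK (Pool.Agent.N546.PN.ic c K)) ∧
        (∃ x z, Pool.Agent.U424.DQ.IsP (Pool.Agent.N546.PN.ic c ℚ) x z))).trans (by congr!))
    congr 1
    ext F
    simp only [Set.mem_ofPred_eq, Families, he'']
    refine and_congr_right fun hF => ?_
    have hF' : ∀ k, (F k).IsHomogeneous (e k + 1) := fun k => (hF k).1
    rw [smooth_iff (e := e) hF', hasPoint_iff (e := e) hF' ℚ]
  have e3 : ∀ H : ℕ, (Families n m (fun i : Fin r => d' i + 1) H).ncard =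
      (Pool.Agent.N546.PN.bx n e H).card := by
    intro H
    have h3 := Pool.Agent.N665.PN.conv_card n (Σ i : Fin r, Fin (m i)) e H (fun _ => True)
    rw [Finset.filter_true] at h3
    rw [← h3]
    congr 1
    ext F
    simp [Families, he'']
  constructor
  · refine ⟨c₀, hc₀, ?_⟩
    filter_upwards [h1] with H h3
    rw [e1 H, e3 H]
    convert h3
  · refine h2.congr fun H => ?_
    rw [e1 H, e2 H]

end Pool.Agent.Results.MP_03ef3d_ag.DiagonalQuadricBundles
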