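import Pool.Agent.U449.BV.S
import Pool.Agent.Results.MP_03ef3d_ag.FanoDoubleCovers

/-!
# The Hasse principle for all twists of Fano double covers near the values of polynomials on arbitrary dense sets

Let `V(x; u, v) = A(x) u² + B(x) u v + D(x) v²` be a form of bidegree `(2 m, 2)` with integral coefficients such that the divisor `V = 0` in
`ℙⁿ × ℙ¹` is smooth. The double covers `X_a : w² = a V(x; u, v)` are smooth; they are Fano varieties for `m ≤ n`.

Let `η > 0` and `W ≥ 1`, let `l` be a large prime, `f(x, y)` ANY polynomial modulo `l` of bounded degree with a monomial which contains both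
variables (for example `f = x y`), let `S`, `T` be ARBITRARY sets of at least `η l` residues modulo `l`, and `g`, `h` ARBITRARY functions. For
all but `η |S| |T|` of the pairs `(s, t)` in `S × T`, ALL squarefree integers `a` (positive or negative) such that `|a|` is at a distance of at most
`W` from the least residue of `f(s, t) + g(s) + h(t)` and such that `X_a` has points everywhere locally are such that `X_a` has a rational point:
the Hasse principle holds for ALL these twists. More generally, this holds for all functions of two variables with few coincidences (`Rare`).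

Since the sets and the functions `g` and `h` are arbitrary, the values have no arithmetic structure, and a value can be taken by very many
pairs. So the number of the exceptions does not give the result directly. Proof: the inequality of Cauchy and Schwarz; for most pairs
`a, a'` the difference `F(a, b) - F(a', b)` is small for few `b` (`Pool.Agent.U449.BV`).
-/

set_option autoImplicit false

namespace Pool.Agent.Results.MP_03ef3d_ag.MixedOnDenseSets

open Pool.Agent.U449.BV (Rare dense_zero polys residues)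
open Pool.Agent.Results.MP_03ef3d_ag.FanoDoubleCovers (HasPoint SmoothBranch locallySoluble globallySoluble)

/-- ALL squarefree integers `a` with `||a| - v| ≤ W` for which the twist `w² = a V(x; u, v)` has points over `ℝ` and all `ℚ_p` are such that it
has a rational point. -/
def Near {n : ℕ} (A B D : MvPolynomial (Fin (n + 1)) ℤ) (W v : ℝ) : Prop :=
  ∀ a : ℤ, |((|a| : ℤ) : ℝ) - v| ≤ W → Squarefree a → HasPoint A B D a ℝ →
    (∀ p : Nat.Primes, HasPoint A B D a ℚ_[(p : ℕ)]) → HasPoint A B D a ℚ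

/-- the least residues, shifted by a constant -/
lemma shifted (p : ℕ) [Fact p.Prime] (d : ℕ) (f : MvPolynomial (Fin 2) (ZMod p)) (hd : f.totalDegree ≤ d)
    (hf : ∃ m ∈ f.support, m 0 ≠ 0 ∧ m 1 ≠ 0) (g h : ZMod p → ZMod p) (A B : Finset (ZMod p)) (y : ℝ) :
    Rare d A B (fun a b => y + (((MvPolynomial.eval ![a, b] f + g a + h b).val : ℕ) : ℝ)) := by
  have h1 := residues p d f hd hf g h A B
  intro a ha
  simpa only [add_sub_add_left_eq_sub] using h1 a ha

lemma few (n m : ℕ) (hn : 1 ≤ n) (hm : 1 ≤ m) (A B D : MvPolynomial (Fin (n + 1)) ℤ)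
    (hA : A.IsHomogeneous (2 * m)) (hB : B.IsHomogeneous (2 * m)) (hD : D.IsHomogeneous (2 * m))
    (hs : SmoothBranch A B D) (ε : ℝ) (hε : 0 < ε) : ∃ X₀ : ℝ, ∀ X : ℝ, X₀ ≤ X →
      {a : ℤ | a ∈ {a : ℤ | Squarefree a ∧ HasPoint A B D a ℝ ∧ (∀ p : Nat.Primes, HasPoint A B D a ℚ_[(p : ℕ)]) ∧
        ¬ HasPoint A B D a ℚ} ∧ ((|a| : ℤ) : ℝ) ≤ X}.Finite ∧
      ({a : ℤ | a ∈ {a : ℤ | Squarefree a ∧ HasPoint A B D a ℝ ∧ (∀ p : Nat.Primes, HasPoint A B D a ℚ_[(p : ℕ)]) ∧
        ¬ HasPoint A B D a ℚ} ∧ ((|a| : ℤ) : ℝ) ≤ X}.ncard : ℝ) ≤ ε * X := by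
  classical
  obtain ⟨-, h1⟩ := FanoDoubleCovers.result n m hn hm A B D hA hB hD hs
  have h2 : ∀ᶠ H : ℕ in Filter.atTop, 1 - ε / 3 < ((globallySoluble A B D H).ncard : ℝ) / ((locallySoluble A B D H).ncard : ℝ) :=
    h1.eventually (lt_mem_nhds (by linarith))
  obtain ⟨H₀, hH₀⟩ := Filter.eventually_atTop.1 h2
  refine ⟨max (H₀ + 1) 1, fun X hX => ?_⟩
  have hX1 : 1 ≤ X := (le_max_right _ _).trans hX
  have hXH : (H₀ : ℝ) + 1 ≤ X := (le_max_left _ _).trans hX
  obtain ⟨H, hH⟩ : ∃ H, H = ⌊X⌋₊ := ⟨_, rfl⟩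
  have hHle : (H : ℝ) ≤ X := by rw [hH]; exact Nat.floor_le (by linarith)
  have hH1 : 1 ≤ H := by rw [hH]; exact Nat.le_floor (by exact_mod_cast hX1)
  have hH0 : H₀ ≤ H := by rw [hH]; exact Nat.le_floor (by linarith)
  have hf : ∀ P : ℤ → Prop, {a : ℤ | |a| ≤ (H : ℤ) ∧ P a}.Finite := fun P =>
    (Set.finite_Icc (-(H : ℤ)) H).subset fun a ha => Set.mem_Icc.2 (abs_le.1 ha.1)
  have hset : {a : ℤ | a ∈ {a : ℤ | Squarefree a ∧ HasPoint A B D a ℝ ∧ (∀ p : Nat.Primes, HasPoint A B D a ℚ_[(p : ℕ)]) ∧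
      ¬ HasPoint A B D a ℚ} ∧ ((|a| : ℤ) : ℝ) ≤ X} = locallySoluble A B D H \ globallySoluble A B D H := by
    ext a
    simp only [Set.mem_ofPred_eq, Set.mem_sdiff, locallySoluble, globallySoluble]
    have e : ((|a| : ℤ) : ℝ) ≤ X ↔ |a| ≤ (H : ℤ) := by
      have e1 : ((|a| : ℤ) : ℝ) = (a.natAbs : ℝ) := (Nat.cast_natAbs a).symm
      have e2 : |a| ≤ (H : ℤ) ↔ a.natAbs ≤ H := by
        rw [Int.abs_eq_natAbs]
        exact Nat.cast_le
      rw [e1, e2, hH]
      exact (Nat.le_floor_iff (by linarith)).symm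
    rw [e]
    constructor
    · rintro ⟨⟨g1, g2, g3, g4⟩, g5⟩
      exact ⟨⟨g5, g1, g2, g3⟩, fun hc => g4 hc.2.2⟩
    · rintro ⟨⟨g5, g1, g2, g3⟩, g4⟩
      exact ⟨⟨g1, g2, g3, fun hc => g4 ⟨g5, g1, hc⟩⟩, g5⟩
  have hfl : (locallySoluble A B D H).Finite := hf _
  have hfg : (globallySoluble A B D H).Finite := hf _
  have hgl : globallySoluble A B D H ⊆ locallySoluble A B D H := by
    rintro a ⟨g1, g2, g3⟩
    exact ⟨g1, g2, FanoDoubleCovers.cast_point ℝ g3, fun p => by
      have := Fact.mk p.2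
      exact FanoDoubleCovers.cast_point ℚ_[(p : ℕ)] g3⟩
  rw [hset]
  refine ⟨hfl.subset Set.sdiff_subset, ?_⟩
  have h3 : (locallySoluble A B D H \ globallySoluble A B D H).ncard + (globallySoluble A B D H).ncard =
      (locallySoluble A B D H).ncard := Set.ncard_sdiff_add_ncard_of_subset hgl hfl
  have h4 : ((locallySoluble A B D H \ globallySoluble A B D H).ncard : ℝ) =
      (locallySoluble A B D H).ncard - (globallySoluble A B D H).ncard := by
    rw [← h3]
    push_cast
    ring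
  have h5 : ((locallySoluble A B D H).ncard : ℝ) ≤ 3 * H := by
    have h6 : locallySoluble A B D H ⊆ ((Finset.Icc (-(H : ℤ)) H : Finset ℤ) : Set ℤ) := by
      intro a ha
      rw [Finset.mem_coe, Finset.mem_Icc]
      exact abs_le.1 ha.1
    have h7 := Set.ncard_le_ncard h6 (Finset.finite_toSet _)
    rw [Set.ncard_coe_finset, Int.card_Icc] at h7
    have h8 : (locallySoluble A B D H).ncard ≤ 3 * H := by omega
    exact_mod_cast h8
  rcases Nat.eq_zero_or_pos (locallySoluble A B D H).ncard with h6 | h6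
  · have h7 : ((locallySoluble A B D H \ globallySoluble A B D H).ncard : ℝ) ≤ 0 := by
      rw [h4, h6]
      have : (0 : ℝ) ≤ (globallySoluble A B D H).ncard := Nat.cast_nonneg _
      push_cast
      linarith
    have : 0 ≤ ε * X := by positivity
    linarith
  · have h7 : (0 : ℝ) < (locallySoluble A B D H).ncard := by exact_mod_cast h6
    have h8 := hH₀ H hH0
    rw [lt_div_iff₀ h7] at h8
    rw [h4]
    have h9 : ε / 3 * ((locallySoluble A B D H).ncard : ℝ) ≤ ε / 3 * (3 * H) :=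
      mul_le_mul_of_nonneg_left h5 (by positivity)
    have h10 : ε * (H : ℝ) ≤ ε * X := mul_le_mul_of_nonneg_left hHle hε.le
    linarith

/-- **Theorem.** (1) Let `V = A u² + B u v + D v²` have bidegree `(2 m, 2)` and a smooth divisor `V = 0` in `ℙⁿ × ℙ¹`, let `η > 0`, `W ≥ 1` and `d`
be given, and let `X` be large. The property `Near` (the Hasse principle for ALL the twists near the value) holds for all but `η |S| |T|` of the
values of all functions `F` with few coincidences, bounded by `X`, on ARBITRARY finite sets `S`, `T` of at least `η X` elements.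
(2) Coincidences are rare for `f(a, b) + g(a) + h(b)`, where `f` is any
integer polynomial with a monomial which contains both variables, and `g` and `h` are arbitrary real functions, on arbitrary
finite sets of integers. (3) The same is true of `y` plus the least residues of `f(a, b) + g(a) + h(b)` modulo a prime. -/
theorem result :
    (∀ n m : ℕ, 1 ≤ n → 1 ≤ m → ∀ A B D : MvPolynomial (Fin (n + 1)) ℤ, A.IsHomogeneous (2 * m) → B.IsHomogeneous (2 * m) →
      D.IsHomogeneous (2 * m) → SmoothBranch A B D → ∀ (η W : ℝ) (d : ℕ), 0 < η → 1 ≤ W → ∃ X₀ : ℝ, ∀ X : ℝ, X₀ ≤ X →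
      ∀ (α β : Type) (S : Finset α) (T : Finset β) (F : α → β → ℝ), η * X ≤ S.card → η * X ≤ T.card →
        (∀ a ∈ S, ∀ b ∈ T, |F a b| ≤ X) → Rare d S T F →
        ({z : α × β | z.1 ∈ S ∧ z.2 ∈ T ∧ ¬ Near A B D W (F z.1 z.2)}.ncard : ℝ) ≤ η * (S.card * T.card)) ∧
    (∀ (d : ℕ) (f : MvPolynomial (Fin 2) ℤ), f.totalDegree ≤ d → (∃ m ∈ f.support, m 0 ≠ 0 ∧ m 1 ≠ 0) →
      ∀ (g h : ℤ → ℝ) (A B : Finset ℤ),
        Rare d A B (fun a b => ((MvPolynomial.eval ![a, b] f : ℤ) : ℝ) + g a + h b)) ∧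
    ∀ (p : ℕ) [Fact p.Prime] (d : ℕ) (f : MvPolynomial (Fin 2) (ZMod p)), f.totalDegree ≤ d →
      (∃ m ∈ f.support, m 0 ≠ 0 ∧ m 1 ≠ 0) → ∀ (g h : ZMod p → ZMod p) (A B : Finset (ZMod p)) (y : ℝ),
        Rare d A B (fun a b => y + (((MvPolynomial.eval ![a, b] f + g a + h b).val : ℕ) : ℝ)) := by
  refine ⟨?_, polys, fun p _ d f hd hf g h A B y => shifted p d f hd hf g h A B y⟩
  intro n m hn hm A B D hA hB hD hs η W d hη hW
  obtain ⟨X₀, hX₀⟩ := dense_zero (T := ℤ) {a : ℤ | Squarefree a ∧ HasPoint A B D a ℝ ∧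
    (∀ p : Nat.Primes, HasPoint A B D a ℚ_[(p : ℕ)]) ∧ ¬ HasPoint A B D a ℚ} (fun a => ((|a| : ℤ) : ℝ))
    (few n m hn hm A B D hA hB hD hs) η W d hη hW
  refine ⟨X₀, fun X hX α β S T F hS hT hF hR => le_trans ?_ (hX₀ X hX α β S T F hS hT hF hR)⟩
  refine Nat.cast_le.2 (Set.ncard_le_ncard ?_ ?_)
  · rintro z ⟨hz1, hz2, hz3⟩
    unfold Near at hz3
    push Not at hz3
    obtain ⟨a, g1, g2, g3, g4, g5⟩ := hz3
    exact ⟨hz1, hz2, a, ⟨g2, g3, g4, g5⟩, g1⟩
  · apply (S ×ˢ T).finite_toSet.subset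
    rintro z ⟨hz1, hz2, -⟩
    rw [Finset.mem_coe, Finset.mem_product]
    exact ⟨hz1, hz2⟩

end Pool.Agent.Results.MP_03ef3d_ag.MixedOnDenseSets
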