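import Pool.Agent.U376.RL.Cell
import Pool.Agent.N844.PL.Gen
import Pool.Agent.N844.QR.Ex
import Pool.Agent.N844.WA.Non

/-!
# Intersections of two quadrics: the Hasse principle and weak approximation in every residue class and near
# every real shape, over every number field

Let `F` be ANY number field, `g ≥ 2`, and let `X ⊂ P^(2g+1)` be a smooth complete intersection of two quadrics
over `F` (a Fano variety of dimension `2 g - 1 ≥ 3`) such that a member of the pencil of the quadrics which
contain `X` is defined over `F` and singular. Up to a change of coordinates `X` is the base locus of a pencil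
`x A - z B` of symmetric matrices over `F` with

  `(-1)^(g+1) det (x A - z B) = m² z F(x, z)`, `F(x, 1) = f`, `m ≠ 0`,

where `f` is monic of degree `2 g + 1` over the ring of integers, with trace zero. Order all these `f` by
height. Prescribe a residue class: `f ≡ p` modulo `N`, where `p` is irreducible modulo the primes over `2` which
divide `N`, and the discriminant of `p` is not divisible by the other primes `𝔭` which divide `N`, or not by
`𝔭 ^ 2` if `𝔭 ^ 2` divides `N`; and a shape at infinity: for given complex numbers `a_(j,σ)`, compatible with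
complex conjugation, the numbers `σ(f_j)` are up to `ε t ^ (2 g + 1 - j)` equal to
`t ^ (2 g + 1 - j) a_(j,σ)` for some natural number `t`. So for example the number of the real roots of `f` at
every real embedding can be prescribed.

Theorem: a positive proportion of ALL the `f` (ordered by height) is in this cell and has the following
property: for ALL the `X` over `F` with discriminant `m² z F`, if `X` contains a linear subspace of dimension
`g - 1` over all completions of `F`, then `X` contains a linear subspace of dimension `g - 1` over `F`, in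
particular a line `ℓ` defined over `F`, spanned by `e` and `e'`, and weak approximation holds for the
open subset `U` of `X` where the bilinear forms of `A` and `B` have

  `D(y) = A(e, y) B(e', y) - A(e', y) B(e, y) ≠ 0`.

(We use coordinates in the affine cones. `U` is not empty, it has a point over `F`, and for a smooth `X` the
points of `U` over `F_v` are dense in the points of `X` over `F_v`; the last fact is not formalized.)

The starting result `MP_9fb703_nt/PlanesEverywhereLocally` is the case without residue class and shape, and the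
definitions and the deduction from the 2-Selmer group of the Jacobian of `y² = f(x)` are taken from it
(libraries `N844/PL`, `N844/QR`, `N844/WA` of helper844). New is that the `f` with trivial 2-Selmer group are of
positive proportion in every cell: project PF of helper783 and coauthors is redone for the lattice points of
a cell (`U376/RF`, `U376/RL`): the set of polynomials near the multiples of a shape is an open subset of the
box, twists by natural numbers congruent to 1 modulo `N` do not leave the cell.
-/

set_option autoImplicit false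
set_option linter.all false

open Finset Matrix Polynomial IsDedekindDomain NumberField

namespace Pool.Agent.Results.MP_03ef3d_ag.QuadricPencilsInEveryCell

/-! ### Pencils of quadrics and linear subspaces -/

section pencils

variable {K : Type} [Field K]

/-- the homogeneous form `F(x, z)` of degree `2 g + 1` of `f` -/
def form (g : ℕ) (f : K[X]) (x z : K) : K :=
  ∑ i ∈ range (2 * g + 2), f.coeff i * x ^ i * z ^ (2 * g + 1 - i)

/-- the matrices of size `2 g + 2` -/
abbrev Mat (g : ℕ) (K : Type) : Type := Matrix (Fin (2 * g + 2)) (Fin (2 * g + 2)) K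

/-- the quadratic form of a matrix -/
def qf {N : ℕ} (A : Matrix (Fin N) (Fin N) K) (y : Fin N → K) : K := y ⬝ᵥ (A *ᵥ y)

/-- the pencils with discriminant `m ^ 2 z F(x, z)` -/
structure IsPencil (g : ℕ) (f : K[X]) (m : K) (A B : Mat g K) : Prop where
  symA : A.IsSymm
  symB : B.IsSymm
  disc : ∀ x z : K, (-1) ^ (g + 1) * (x • A - z • B).det = m ^ 2 * (z * form g f x z)

/-- there is a vector space `W` of dimension `d` over `K` on which both quadratic forms are zero -/
def HasSpace {N : ℕ} (d : ℕ) (A B : Matrix (Fin N) (Fin N) K) : Prop :=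
  ∃ W : Submodule K (Fin N → K), Module.finrank K W = d ∧ ∀ y ∈ W, qf A y = 0 ∧ qf B y = 0

/-- The base locus `X` of the pencil contains a linear subspace of dimension `g - 1` defined over the field
`E`, for a pencil over `K` and a map `φ` from `K` to `E`: there is a vector space of dimension `g` over `E`
on which both quadratic forms are zero. -/
def HasPlane {g : ℕ} {E : Type} [Field E] (φ : K →+* E) (A B : Mat g K) : Prop :=
  HasSpace g (A.map φ) (B.map φ)

/-- the bilinear form of a matrix -/
def bilin {N : ℕ} (A : Matrix (Fin N) (Fin N) K) (x y : Fin N → K) : K := x ⬝ᵥ (A *ᵥ y)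

/-- `D(y) = A(e, y) B(e', y) - A(e', y) B(e, y)` -/
def det2 {N : ℕ} (A B : Matrix (Fin N) (Fin N) K) (e e' y : Fin N → K) : K :=
  bilin A e y * bilin B e' y - bilin A e' y * bilin B e y

/-- `e` and `e'` span a line which is contained in the base locus `X` -/
def IsLine {N : ℕ} (A B : Matrix (Fin N) (Fin N) K) (e e' : Fin N → K) : Prop :=
  LinearIndependent K ![e, e'] ∧ ∀ s t : K, qf A (s • e + t • e') = 0 ∧ qf B (s • e + t • e') = 0

/-- `y` is a point of `U` over the field `E` (in coordinates of the affine cone): both forms are zero at `y`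
and `D(y) ≠ 0` -/
def OnU {N : ℕ} {E : Type} [Field E] (φ : K →+* E) (A B : Matrix (Fin N) (Fin N) K)
    (e e' : Fin N → K) (y : Fin N → E) : Prop :=
  qf (A.map φ) y = 0 ∧ qf (B.map φ) y = 0 ∧
    det2 (A.map φ) (B.map φ) (fun j => φ (e j)) (fun j => φ (e' j)) y ≠ 0

/-- `y` is a point of `U` over the completion of `K` at the absolute value `v` -/
def OnUAt {N : ℕ} (v : AbsoluteValue K ℝ) (A B : Matrix (Fin N) (Fin N) K) (e e' : Fin N → K)
    (y : Fin N → v.Completion) : Prop := OnU (algebraMap K v.Completion) A B e e' y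

/-- the distance of the coordinates of `z` and `y` in the completion is less than `ε` -/
def Near {N : ℕ} (v : AbsoluteValue K ℝ) (ε : ℝ) (z : Fin N → K) (y : Fin N → v.Completion) : Prop :=
  ∀ j, ‖algebraMap K v.Completion (z j) - y j‖ < ε

/-- Weak approximation for `U`: for every finite set of places of `K`, given by nontrivial absolute values
which are pairwise not equivalent, and all points `y_v` of `U` over the completions there are points of `U`
over `K` which are arbitrarily close to all `y_v`. -/
def WeakApproximation {N : ℕ} (A B : Matrix (Fin N) (Fin N) K) (e e' : Fin N → K) : Prop :=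
  ∀ (n : ℕ) (v : Fin (n + 1) → AbsoluteValue K ℝ), (∀ i, (v i).IsNontrivial) →
    (Pairwise fun i j => ¬(v i).IsEquiv (v j)) →
    ∀ y : ∀ i, Fin N → (v i).Completion, (∀ i, OnUAt (v i) A B e e' (y i)) →
      ∀ ε > 0, ∃ z : Fin N → K, OnU (RingHom.id K) A B e e' z ∧ ∀ i, Near (v i) ε z (y i)

end pencils

section numberfield

variable (F : Type) [Field F] [NumberField F] (g B : ℕ)

/-- For all the pencils over `F` with discriminant `m ^ 2 z F(x, z)`, `m ≠ 0`: if the base locus contains a
linear subspace of dimension `g - 1` over the completions of `F` at all finite places and over the real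
numbers, for all embeddings of `F` in the real numbers, then it contains a linear subspace of dimension
`g - 1` over `F` and a line over `F` such that `U` has a point over `F` and weak approximation holds for
`U`. -/
def LocalGlobal (f : F[X]) : Prop :=
  ∀ (m : F) (A B : Mat g F), m ≠ 0 → IsPencil g f m A B →
    (∀ v : HeightOneSpectrum (𝓞 F), HasPlane (algebraMap F (v.adicCompletion F)) A B) →
    (∀ ρ : F →+* ℝ, HasPlane ρ A B) →
    HasPlane (RingHom.id F) A B ∧ ∃ e e' : Fin (2 * g + 2) → F, IsLine A B e e' ∧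
      (∃ z : Fin (2 * g + 2) → F, OnU (RingHom.id F) A B e e' z) ∧ WeakApproximation A B e e'

/-- `f` is monic of degree `2 g + 1` without term of degree `2 g`, and all the conjugates of the coefficient
of `x ^ j` are at most `B ^ (2 g + 1 - j)` in absolute value. -/
structure IsPoly (f : (𝓞 F)[X]) : Prop where
  monic : f.Monic
  degree : f.natDegree = 2 * g + 1
  trace : f.coeff (2 * g) = 0
  height : ∀ j ≤ 2 * g, ∀ σ : F →+* ℂ, ‖σ (f.coeff j : F)‖ ≤ (B : ℝ) ^ (2 * g + 1 - j)

/-- all the polynomials `f` of height at most `B` -/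
def Polys : Set (𝓞 F)[X] := {f | IsPoly F g B f}

/-- there is no prime `P` such that `P ^ (2 (2 g + 1 - j))` divides the coefficient of `x ^ j` for all
`j ≤ 2 g` -/
def Minimal (f : (𝓞 F)[X]) : Prop :=
  ∀ P : Ideal (𝓞 F), P.IsPrime → P ≠ ⊥ → ¬ ∀ j ≤ 2 * g, f.coeff j ∈ P ^ (2 * (2 * g + 1 - j))

/-- the polynomial `f` over `F` -/
noncomputable def polyF (f : (𝓞 F)[X]) : F[X] := f.map (algebraMap (𝓞 F) F)

/-- The condition on the residue class of `p` modulo `N` at the primes which contain `N`. -/
def Admissible (N : ℕ) (p : (𝓞 F)[X]) : Prop :=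
  ∀ 𝔭 : Ideal (𝓞 F), 𝔭.IsPrime → 𝔭 ≠ ⊥ → (N : 𝓞 F) ∈ 𝔭 →
    ((2 : 𝓞 F) ∈ 𝔭 → Irreducible (p.map (Ideal.Quotient.mk 𝔭))) ∧
    ((2 : 𝓞 F) ∉ 𝔭 → p.discr ∉ 𝔭 ∨ ((N : 𝓞 F) ∈ 𝔭 ^ 2 ∧ p.discr ∉ 𝔭 ^ 2))

/-- a shape: complex numbers `a j σ`, compatible with complex conjugation -/
def IsShape (a : Fin (2 * g) → (F →+* ℂ) → ℂ) : Prop :=
  ∀ j σ, a j (ComplexEmbedding.conjugate σ) = (starRingEnd ℂ) (a j σ)

/-- The cell: `f` is congruent to `p` modulo `N`, and for some natural number `t > 0` the coefficients of
`f` are near to `t ^ (2 g + 1 - j) a_j` at all embeddings. -/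
def InCell (N : ℕ) (p : (𝓞 F)[X]) (a : Fin (2 * g) → (F →+* ℂ) → ℂ) (ε : ℝ) (f : (𝓞 F)[X]) : Prop :=
  (∀ j, (N : 𝓞 F) ∣ f.coeff j - p.coeff j) ∧
    ∃ t : ℕ, 0 < t ∧ ∀ (j : Fin (2 * g)) (σ : F →+* ℂ),
      ‖σ (f.coeff (j : ℕ) : F) - (t : ℂ) ^ (2 * g + 1 - (j : ℕ)) * a j σ‖ ≤
        ε * (t : ℝ) ^ (2 * g + 1 - (j : ℕ))

/-- the polynomials `f` of height at most `B` in the cell which are minimal and irreducible over `F` and for
which the local-global principle holds -/
def Good (N : ℕ) (p : (𝓞 F)[X]) (a : Fin (2 * g) → (F →+* ℂ) → ℂ) (ε : ℝ) : Set (𝓞 F)[X] :=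
  {f ∈ Polys F g B | InCell F g N p a ε f ∧ Minimal F g f ∧ Irreducible (polyF F f) ∧
    LocalGlobal F g (polyF F f)}

/-- a positive proportion of all the polynomials ordered by height is in the cell and good -/
def PositiveProportion (N : ℕ) (p : (𝓞 F)[X]) (a : Fin (2 * g) → (F →+* ℂ) → ℂ) (ε : ℝ) : Prop :=
  ∃ c : ℝ, 0 < c ∧ ∃ B₀ : ℕ, ∀ B ≥ B₀, (Polys F g B).Finite ∧ 0 < (Polys F g B).ncard ∧
    c * ((Polys F g B).ncard : ℝ) ≤ ((Good F g B N p a ε).ncard : ℝ)

end numberfield

section proof

variable (F : Type) [Field F] [NumberField F] {g : ℕ}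

/-- weak approximation from the projection from a line -/
theorem weak {K : Type} [Field K] [CharZero K] {N : ℕ} {A B : Matrix (Fin N) (Fin N) K}
    (hA : A.IsSymm) (hB : B.IsSymm) (W : Submodule K (Fin N → K))
    (hWA : ∀ y ∈ W, qf A y = 0) (hWB : ∀ y ∈ W, qf B y = 0) {e e' : Fin N → K} (he : e ∈ W)
    (he' : e' ∈ W) : WeakApproximation A B e e' := by
  intro n v hv1 hv2 y hy ε hε
  have h2 : (2 : K) ≠ 0 := two_ne_zero
  obtain ⟨z, h3, h4, h5, h6⟩ := Pool.Agent.N844.WA.approx (fun i => (v i).Completion)
    (fun i => algebraMap K (v i).Completion) (Pool.Agent.N844.WA.dense v hv1 hv2) h2 hA hB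
    (hWA e he) (hWA e' he') (Pool.Agent.N844.WA.polz h2 hA W hWA he he')
    (hWB e he) (hWB e' he') (Pool.Agent.N844.WA.polz h2 hB W hWB he he') ⟨0⟩ y
    (fun i => (hy i).1) (fun i => (hy i).2.1) (fun i => (hy i).2.2)
    (fun i => Metric.ball (y i) ε) (fun i => Metric.ball_mem_nhds _ hε)
  refine ⟨z, ⟨?_, ?_, ?_⟩, fun i j => ?_⟩
  · rw [show A.map (RingHom.id K) = A from Matrix.map_id A]
    exact h3
  · rw [show B.map (RingHom.id K) = B from Matrix.map_id B]
    exact h4
  · rw [show A.map (RingHom.id K) = A from Matrix.map_id A,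
      show B.map (RingHom.id K) = B from Matrix.map_id B]
    exact h5
  · have h7 := h6 i
    rw [Metric.mem_ball, dist_pi_lt_iff hε] at h7
    have h8 := h7 j
    rwa [dist_eq_norm] at h8

theorem ht_iff (B : ℕ) (f : (𝓞 F)[X]) : IsPoly F g B f ↔ Pool.Agent.N783.PF.Ht g B f :=
  ⟨fun h => ⟨h.monic, h.degree, h.trace, h.height⟩, fun h => ⟨h.mon, h.deg, h.tr, h.ht⟩⟩

theorem plane_iff {K : Type} [Field K] (A B : Mat g K) :
    HasPlane (RingHom.id K) A B ↔ Pool.Agent.N844.PL.HasPl g A B := by
  unfold HasPlane
  rw [show A.map (RingHom.id K) = A from Matrix.map_id A,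
    show B.map (RingHom.id K) = B from Matrix.map_id B]
  exact Iff.rfl

theorem pen {K : Type} [Field K] {f : K[X]} {m : K} {A B : Mat g K} (h : IsPencil g f m A B) :
    Pool.Agent.N844.QR.IsPen g f m A B := ⟨h.symA, h.symB, h.disc⟩

/-- the local condition in terms of polynomials -/
theorem loc {K : Type} [Field K] [CharZero K] (φ : F →+* K) {f : F[X]} (hf : f.Monic)
    (hd : f.natDegree = 2 * g + 1) (hs : f.Separable) {h : F[X]} (hh : IsCoprime h f)
    (hN : IsSquare (Algebra.norm F (AdjoinRoot.mk f h))) {c : F} (hc : c ≠ 0) {P A B : Mat g F}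
    (hP : P.det ≠ 0) (hA : Pᵀ * A * P = c • Pool.Agent.N844.PL.quadA g f h)
    (hB : Pᵀ * B * P = c • Pool.Agent.N844.PL.quadB g f h) (hpl : HasPlane φ A B) :
    ∃ (l : List (K[X] × K[X])) (s : K[X]),
      (∀ p ∈ l, p.1.Monic ∧ IsCoprime p.1 (f.map φ) ∧ p.1 ∣ p.2 ^ 2 - f.map φ) ∧
      f.map φ ∣ h.map φ * (l.map fun p => (-1) ^ p.1.natDegree * p.1).prod - s ^ 2 := by
  refine Pool.Agent.N844.PL.loc_map φ hf hd hs h hh hN ?_
  refine Pool.Agent.N844.PL.pl_to (c := φ c) (P := P.map φ) ?_ ?_
    (Pool.Agent.N844.PL.map_conj φ hA) (Pool.Agent.N844.PL.map_conj φ hB) hpl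
  · rwa [Ne, map_eq_zero]
  · have e : (P.map φ).det = φ P.det := by
      rw [RingHom.map_det]
      rfl
    rw [e]
    rwa [Ne, map_eq_zero]

/-- from the explicit 2-Selmer group to the planes -/
theorem localGlobal (hg : 2 ≤ g) {f : (𝓞 F)[X]} (hf : f.Monic) (hd : f.natDegree = 2 * g + 1)
    (hi : Irreducible (polyF F f)) (hs : Pool.Agent.N783.PF.SelZero f) :
    LocalGlobal F g (polyF F f) := by
  intro m A B hm hpen hv hρ
  have hf' : (polyF F f).Monic := hf.map _
  have hd' : (polyF F f).natDegree = 2 * g + 1 := by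
    unfold polyF
    rw [hf.natDegree_map, hd]
  obtain ⟨h, c, P, hh, hN, hc, hP, hA, hB⟩ :=
    Pool.Agent.N844.PL.normal hf' hd' hi A B m hm (pen hpen)
  obtain ⟨s, hs'⟩ := hs h hh hN (fun v => by
      haveI : CharZero (v.adicCompletion F) :=
        charZero_of_injective_algebraMap (algebraMap F (v.adicCompletion F)).injective
      exact loc F (algebraMap F (v.adicCompletion F)) hf' hd' hi.separable hh hN hc hP hA hB (hv v))
    (fun ρ => loc F ρ hf' hd' hi.separable hh hN hc hP hA hB (hρ ρ))
  have hpl := Pool.Agent.N844.PL.pl_from hP hA hB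
    (Pool.Agent.N844.PL.plane_of_sq hf' hd' h hh s hs')
  refine ⟨(plane_iff A B).2 hpl, ?_⟩
  obtain ⟨W, hW, hq⟩ := hpl
  obtain ⟨e, he, e', he', hli⟩ := Pool.Agent.N844.WA.line W (by rw [hW]; omega)
  refine ⟨e, e', ⟨hli, fun s t => hq _ (W.add_mem (W.smul_mem s he) (W.smul_mem t he'))⟩, ?_,
    weak hpen.symA hpen.symB W (fun y hy => (hq y hy).1) (fun y hy => (hq y hy).2) he he'⟩
  obtain ⟨z, h3, h4, h5⟩ := Pool.Agent.N844.WA.nonempty hpen.symA hpen.symB W
    (fun y hy => (hq y hy).1) (fun y hy => (hq y hy).2) he he' hli (fun y hy hyW => by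
      have h6 := (pen hpen).smooth (RingHom.id F) hf' hd' (by rwa [RingHom.id_apply])
        (by rw [Polynomial.map_id]; exact hi.separable) (y := y) hy
      rw [show A.map (RingHom.id F) = A from Matrix.map_id A,
        show B.map (RingHom.id F) = B from Matrix.map_id B] at h6
      exact h6 (hq y hyW).1 (hq y hyW).2)
  refine ⟨z, ?_, ?_, ?_⟩
  · rw [show A.map (RingHom.id F) = A from Matrix.map_id A]
    exact h3
  · rw [show B.map (RingHom.id F) = B from Matrix.map_id B]
    exact h4
  · rw [show A.map (RingHom.id F) = A from Matrix.map_id A,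
      show B.map (RingHom.id F) = B from Matrix.map_id B]
    exact h5

end proof

/-- **Theorem.** For every number field `F`, `g ≥ 2`, every admissible residue class of polynomials of degree
`2 g + 1` without term of degree `2 g` and every shape at infinity there is a positive constant `c` such that
for all large `B` at least `c` times the number of ALL the `f` of height at most `B` are in this cell,
minimal, irreducible over `F` and such that for ALL the pencils of quadrics in `P^(2g+1)` over `F` with
discriminant `m ^ 2 z F(x, z)` the following is true: if the base locus `X` contains a linear subspace of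
dimension `g - 1` over all completions of `F` then it contains a linear subspace of dimension `g - 1` over `F`
and a line over `F` such that the open subset `U` of `X` has a point over `F` and satisfies weak
approximation. -/
theorem result (g : ℕ) (hg : 2 ≤ g) (F : Type) [Field F] [NumberField F] (N : ℕ) (hN : 0 < N)
    (p : (𝓞 F)[X]) (hpm : p.Monic) (hpd : p.natDegree = 2 * g + 1) (hpt : p.coeff (2 * g) = 0)
    (hp : Admissible F N p) (a : Fin (2 * g) → (F →+* ℂ) → ℂ) (ha : IsShape F g a) (ε : ℝ)
    (hε : 0 < ε) : PositiveProportion F g N p a ε := by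
  classical
  haveI : Infinite F := CharZero.infinite _
  obtain ⟨c, hc, B₀, hB₀⟩ := Pool.Agent.U376.RL.mainCell F g (by omega) N hN p hpm hpd hpt
    (fun 𝔭 h1 h2 h3 h4 => (hp 𝔭 h1 h2 h3).1 h4)
    (fun 𝔭 h1 h2 h3 h4 => (hp 𝔭 h1 h2 h3).2 h4) a ha hε
  refine ⟨c, hc, B₀, fun B hB => ?_⟩
  obtain ⟨hHt, hle⟩ := hB₀ B hB
  have e1 : Polys F g B = {f : (𝓞 F)[X] | Pool.Agent.N783.PF.Ht g B f} :=
    Set.ext fun f => ht_iff F B f
  have hfin : (Polys F g B).Finite := by rw [e1]; exact hHt
  refine ⟨hfin, ?_, ?_⟩
  · rw [Set.ncard_pos hfin]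
    refine ⟨X ^ (2 * g + 1), monic_X_pow _, natDegree_X_pow _, ?_, fun j hj σ => ?_⟩
    · rw [coeff_X_pow, if_neg (by omega)]
    · rw [coeff_X_pow, if_neg (by omega)]
      rw [show ((0 : 𝓞 F) : F) = 0 from rfl, map_zero, norm_zero]
      positivity
  · rw [e1]
    refine hle.trans ?_
    have h3 : {f : (𝓞 F)[X] | Pool.Agent.N783.PF.Ht g B f ∧
        Irreducible (Pool.Agent.N783.PF.fF f) ∧ Pool.Agent.N783.PF.SelZero f ∧
        Pool.Agent.N783.PF.Min g f ∧ (∀ j, (N : 𝓞 F) ∣ f.coeff j - p.coeff j) ∧
        Pool.Agent.U376.RL.NearA g a ε f} ⊆ Good F g B N p a ε := by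
      rintro f ⟨h4, h5, h6, h7, h8, h9⟩
      exact ⟨(ht_iff F B f).2 h4, ⟨h8, h9⟩, h7, h5, localGlobal F hg h4.mon h4.deg h5 h6⟩
    exact_mod_cast Set.ncard_le_ncard h3 (hfin.subset fun a ha => ha.1)

end Pool.Agent.Results.MP_03ef3d_ag.QuadricPencilsInEveryCell
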